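import Pool.Agent.helper70.BND.SpecH

set_option autoImplicit false

open scoped Topology
open Finset

namespace Pool.Agent.BND.EX

theorem GDX (hMKL : MKL_stmt) (hDLF : DLF_stmt) (hCVF : CVF_stmt) : GDX_stmt := by
  intro A J κ₀ κ₁ Cc Bb X hG hX hX0 hB hN
  have hlv : IsLv A.l := (hMKL A hG).1
  obtain ⟨hD1, -, -, -, -, -, -, hD8⟩ := hDLF A.l.N J
  obtain ⟨hc1, hc2, hc3, hc4, hc5, hc6, hc7⟩ := hCVF A.l hlv
  have hn0 : 0 < A.l.n := hlv.n0
  have hN0 : 0 < A.l.N := lt_of_lt_of_le hn0 hlv.nN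
  have h0U : (0 : ℝ) ∈ U := ⟨le_refl _, zero_le_one⟩
  have key : ∀ (Y Z : List ℕ) (e : ℕ) (t : ℝ), e < A.l.N → t ∈ U → (Y ++ (A.l.W e false ++ Z)).Perm X →
      Gd A.l J κ₀ κ₁ Cc Bb ((0, 0) :: (Dl A.l.N J ++ (vw Y ++ (e, t) :: vw Z) ++ [(0, 0)])) := by
    intro Y Z e t he ht hP
    have hY : ∀ y ∈ Y, y < A.l.n := by
      intro y hy
      exact hX y (hP.mem_iff.mp (by simp [hy]))
    have hZ : ∀ y ∈ Z, y < A.l.n := by
      intro y hy
      exact hX y (hP.mem_iff.mp (by simp [hy]))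
    have hvY : ∀ a ∈ vw Y, a.1 < A.l.n ∧ a.2 = 0 := by
      intro a ha
      simp only [vw, List.mem_map] at ha
      obtain ⟨y, hy, rfl⟩ := ha
      exact ⟨hY y hy, rfl⟩
    have hvZ : ∀ a ∈ vw Z, a.1 < A.l.n ∧ a.2 = 0 := by
      intro a ha
      simp only [vw, List.mem_map] at ha
      obtain ⟨y, hy, rfl⟩ := ha
      exact ⟨hZ y hy, rfl⟩
    have hw1 : ((0, 0) :: (Dl A.l.N J ++ (vw Y ++ (e, t) :: vw Z) ++ [(0, 0)]) : List (ℕ × ℝ)) =
        vw [0] ++ (Dl A.l.N J ++ (vw Y ++ ([(e, t)] ++ vw Z)) ++ vw [0]) := by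
      simp
    have h00 : ∀ x ∈ [0], x < A.l.n := by
      intro x hx
      simp only [List.mem_singleton] at hx
      rw [hx]
      exact hn0
    refine ⟨⟨vw Y, (e, t), vw Z, rfl, ?_⟩, ?_, ?_, ?_⟩
    · intro a ha
      rcases List.mem_append.mp ha with h | h
      · exact Or.inl (hvY a h).1
      · exact Or.inl (hvZ a h).1
    · intro a ha
      simp only [List.mem_cons, List.mem_append, List.not_mem_nil, or_false] at ha
      rcases ha with h | (h | (h | h | h)) | h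
      · rw [h]; exact ⟨hN0, h0U⟩
      · exact ⟨(hD1 a h).1, (hD1 a h).2.1⟩
      · refine ⟨lt_of_lt_of_le (hvY a h).1 hlv.nN, ?_⟩
        rw [(hvY a h).2]; exact h0U
      · rw [h]; exact ⟨he, ht⟩
      · refine ⟨lt_of_lt_of_le (hvZ a h).1 hlv.nN, ?_⟩
        rw [(hvZ a h).2]; exact h0U
      · rw [h]; exact ⟨hN0, h0U⟩
    · have hcv : ∀ v, cv A.l ((0, 0) :: (Dl A.l.N J ++ (vw Y ++ (e, t) :: vw Z) ++ [(0, 0)])) v = fc A.l J X v := by
        intro v
        rw [hw1, hc1, hc1, hc1, hc1, hc1, hc4 [0] v h00, hc4 Y v hY, hc4 Z v hZ, hc6, hc7]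
        unfold fc
        have hx := hP.count_eq v
        rw [List.count_append, List.count_append] at hx
        have h2 : (0 :: (D0 A.l J ++ X ++ [0])) = [0] ++ (D0 A.l J ++ X ++ [0]) := rfl
        rw [h2, List.count_append, List.count_append, List.count_append]
        have h3 : List.count v (A.l.W (e, t).1 false) = List.count v (A.l.W e false) := rfl
        rw [h3]
        omega
      obtain ⟨r, hr, hr2⟩ := hN
      refine ⟨r, hr, ?_⟩
      intro v hv
      have h5 := hr2 v hv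
      simp only [hcv v]
      exact h5
    · rw [hw1, hc2, hc2, hc2, hc2, hc2, hc5 [0] h00, hc5 Y hY, hc5 Z hZ]
      have h1 := hc3 (Dl A.l.N J)
      have h2 := hc3 [(e, t)]
      have h3 := hD8 A.l.h e he
      simp only [hw_cons, hw_nil] at h2
      omega
  refine ⟨?_, key⟩
  cases X with
  | nil => exact absurd rfl hX0
  | cons x X' =>
    have hx : x < A.l.n := hX x (by simp)
    have h1 := key [] X' x 0 (lt_of_lt_of_le hx hlv.nN) h0U (by rw [hlv.vtx x hx false]; exact List.Perm.refl _)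
    exact h1

end Pool.Agent.BND.EX
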